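import Pool.Agent.W823.QT.Stm

/-! From the grid to continuous time (adapted from the files of helper845). -/

set_option autoImplicit false
set_option linter.unusedSectionVars false

namespace Pool.Agent.W381.QTLIM

open MeasureTheory ProbabilityTheory Filter Topology Pool.Agent.W845.Traps Pool.Agent.W823.QT
open scoped ENNReal NNReal

universe u v

/-! ### General lemmas (copied) -/

/-- mean of the Poisson law -/
theorem poisson_mean (ν : ℝ≥0) : ∫⁻ n, (n : ℝ≥0∞) ∂(poissonMeasure ν) = ν := by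
  rw [lintegral_countable', tsum_eq_zero_add' ENNReal.summable]
  simp only [Nat.cast_zero, zero_mul, zero_add]
  have h1 : ∀ n : ℕ, ((n + 1 : ℕ) : ℝ≥0∞) * (poissonMeasure ν) {n + 1} =
      ν * (poissonMeasure ν) {n} := by
    intro n
    rw [poissonMeasure_singleton, poissonMeasure_singleton, ← ENNReal.ofReal_natCast,
      ← ENNReal.ofReal_mul (by positivity), ← ENNReal.ofReal_coe_nnreal (p := ν),
      ← ENNReal.ofReal_mul (by positivity)]
    congr 1
    rw [Nat.factorial_succ, pow_succ]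
    have : ((n.factorial : ℕ) : ℝ) ≠ 0 := by positivity
    have : ((n + 1 : ℕ) : ℝ) ≠ 0 := by positivity
    push_cast at *
    field_simp
  simp_rw [h1]
  rw [ENNReal.tsum_mul_left]
  have h2 := lintegral_countable' (μ := poissonMeasure ν) (fun _ : ℕ => (1 : ℝ≥0∞))
  simp only [one_mul, lintegral_const, measure_univ] at h2
  rw [← h2, mul_one]

theorem sum_range_eq {Ω' : Type*} (N : Ω' → ℕ) (f : ℕ → Ω' → ℝ≥0∞) (ω : Ω') :
    ∑ j ∈ Finset.range (N ω), f j ω = ∑' j, ({ω | j < N ω} : Set Ω').indicator (f j) ω := by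
  rw [tsum_eq_sum (s := Finset.range (N ω))]
  · refine Finset.sum_congr rfl fun j hj => ?_
    rw [Set.indicator_of_mem (show ω ∈ {ω | j < N ω} from Finset.mem_range.1 hj)]
  · intro j hj
    rw [Set.indicator_of_notMem]
    intro h
    exact hj (Finset.mem_range.2 h)

theorem sum_range_meas {Ω' : Type*} [MeasurableSpace Ω'] {N : Ω' → ℕ} (hN : Measurable N)
    {f : ℕ → Ω' → ℝ≥0∞} (hf : ∀ j, Measurable (f j)) :
    Measurable fun ω => ∑ j ∈ Finset.range (N ω), f j ω := by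
  simp_rw [sum_range_eq]
  refine Measurable.tsum fun j => ?_
  exact (hf j).indicator (measurableSet_lt measurable_const hN)

/-- integral of a step function -/
theorem lintegral_ceil (F : ℕ → ℝ≥0∞) {h : ℝ≥0} (hh : 0 < h) (m : ℕ) :
    ∫⁻ s in Set.Icc (0 : ℝ) (m * h), F ⌈s / h⌉₊ = h * ∑ k ∈ Finset.Icc 1 m, F k := by
  have hh' : (0 : ℝ) < h := by exact_mod_cast hh
  induction m with
  | zero => simp
  | succ m ih =>
    have h1 : Set.Icc (0 : ℝ) ((m + 1 : ℕ) * h) = Set.Icc (0 : ℝ) (m * h) ∪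
        Set.Ioc ((m : ℝ) * h) ((m + 1 : ℕ) * h) := by
      rw [Set.Icc_union_Ioc_eq_Icc (by positivity) (by push_cast; nlinarith)]
    rw [h1, lintegral_union measurableSet_Ioc, ih]
    · have h2 : ∫⁻ s in Set.Ioc ((m : ℝ) * h) ((m + 1 : ℕ) * h), F ⌈s / h⌉₊ =
          ∫⁻ s in Set.Ioc ((m : ℝ) * h) ((m + 1 : ℕ) * h), F (m + 1) := by
        refine setLIntegral_congr_fun measurableSet_Ioc fun s hs => ?_
        have h3 : ⌈s / h⌉₊ = m + 1 := by
          rw [Nat.ceil_eq_iff (by omega)]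
          constructor
          · rw [lt_div_iff₀ hh']
            simpa using hs.1
          · rw [div_le_iff₀ hh']
            exact hs.2
        simp only [h3]
      rw [h2, setLIntegral_const, Real.volume_Ioc]
      have h4 : ((m + 1 : ℕ) : ℝ) * h - m * h = h := by push_cast; ring
      rw [h4, ENNReal.ofReal_coe_nnreal, Finset.sum_Icc_succ_top (by omega)]
      ring
    · rw [Set.disjoint_left]
      intro s hs hs'
      exact absurd hs'.1 (not_lt.2 hs.2)

/-- grid approximation from the right -/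
noncomputable def apx (h : ℝ≥0) (s : ℝ) : ℝ≥0 := (⌈s / h⌉₊ : ℝ≥0) * h

theorem apx_ge {h : ℝ≥0} (hh : 0 < h) (s : ℝ) : s.toNNReal ≤ apx h s := by
  have hh' : (0 : ℝ) < h := by exact_mod_cast hh
  rw [Real.toNNReal_le_iff_le_coe]
  unfold apx
  push_cast
  rw [← div_le_iff₀ hh']
  exact Nat.le_ceil _

theorem apx_le {h : ℝ≥0} (hh : 0 < h) {s : ℝ} (hs : 0 ≤ s) : (apx h s : ℝ) ≤ s + h := by
  have hh' : (0 : ℝ) < h := by exact_mod_cast hh
  unfold apx
  push_cast
  have h1 : ((⌈s / h⌉₊ : ℕ) : ℝ) < s / h + 1 := Nat.ceil_lt_add_one (by positivity)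
  calc ((⌈s / h⌉₊ : ℕ) : ℝ) * h ≤ (s / h + 1) * h := by gcongr
    _ = s + h := by field_simp

theorem mesh_pos {t : ℝ≥0} (ht : 0 < t) {n : ℕ} (hn : 1 ≤ n) : 0 < t / (n : ℝ≥0) := by
  have : (0 : ℝ≥0) < (n : ℝ≥0) := by exact_mod_cast hn
  positivity

theorem mesh_mul (t : ℝ≥0) {n : ℕ} (hn : 1 ≤ n) : (n : ℝ≥0) * (t / n) = t := by
  have : (n : ℝ≥0) ≠ 0 := by
    have : n ≠ 0 := by omega
    exact_mod_cast this
  field_simp

theorem mesh_tendsto (t : ℝ≥0) : Tendsto (fun n : ℕ => ((t / n : ℝ≥0) : ℝ)) atTop (𝓝 0) := by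
  have h1 : Tendsto (fun n : ℕ => (t : ℝ) / n) atTop (𝓝 0) :=
    tendsto_const_div_atTop_nhds_zero_nat _
  refine h1.congr fun n => ?_
  push_cast
  rfl

theorem apx_tendsto {t : ℝ≥0} (ht : 0 < t) {s : ℝ} (hs : 0 ≤ s) :
    Tendsto (fun n : ℕ => apx (t / n) s) atTop (𝓝[≥] s.toNNReal) := by
  refine tendsto_nhdsWithin_iff.2 ⟨?_, ?_⟩
  · rw [← NNReal.tendsto_coe, Real.coe_toNNReal s hs]
    have h1 : Tendsto (fun n : ℕ => s + ((t / n : ℝ≥0) : ℝ)) atTop (𝓝 s) := by
      simpa using (mesh_tendsto t).const_add s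
    refine tendsto_of_tendsto_of_tendsto_of_le_of_le' tendsto_const_nhds h1 ?_ ?_
    · filter_upwards [eventually_ge_atTop 1] with n hn
      exact Real.toNNReal_le_iff_le_coe.1 (apx_ge (mesh_pos ht hn) s)
    · filter_upwards [eventually_ge_atTop 1] with n hn
      exact apx_le (mesh_pos ht hn) hs
  · filter_upwards [eventually_ge_atTop 1] with n hn
    exact apx_ge (mesh_pos ht hn) s

/-- Scheffé's lemma -/
theorem scheffe {Ω : Type*} [MeasurableSpace Ω] {μ : Measure Ω} {f : Ω → ℝ≥0∞}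
    {fn : ℕ → Ω → ℝ≥0∞} (hf : AEMeasurable f μ) (hfn : ∀ n, Measurable (fn n)) {c : ℝ≥0∞}
    (hc : c ≠ ∞) (h1 : ∫⁻ ω, f ω ∂μ = c) (h2 : ∀ᶠ n in atTop, ∫⁻ ω, fn n ω ∂μ = c)
    (h3 : ∀ᵐ ω ∂μ, f ω ≤ liminf (fun n => fn n ω) atTop) :
    Tendsto (fun n => ∫⁻ ω, (f ω - fn n ω) ∂μ) atTop (𝓝 0) ∧
      Tendsto (fun n => ∫⁻ ω, (fn n ω - f ω) ∂μ) atTop (𝓝 0) := by
  have hfin : ∀ᵐ ω ∂μ, f ω < ∞ := ae_lt_top' hf (by rw [h1]; exact hc)
  have hA : Tendsto (fun n => ∫⁻ ω, (f ω - fn n ω) ∂μ) atTop (𝓝 0) := by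
    have := tendsto_lintegral_filter_of_dominated_convergence' (μ := μ) (l := atTop)
      (F := fun n ω => f ω - fn n ω) (f := fun _ => 0) f
      (Eventually.of_forall fun n => hf.sub (hfn n).aemeasurable)
      (Eventually.of_forall fun n => Eventually.of_forall fun ω => tsub_le_self)
      (by rw [h1]; exact hc) ?_
    · simpa using this
    · filter_upwards [h3, hfin] with ω hω hω2
      rw [ENNReal.tendsto_atTop_zero]
      intro ε hε
      by_cases h0 : f ω = 0
      · exact ⟨0, fun n _ => by rw [h0]; simp⟩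
      · have h4 : f ω - ε < liminf (fun n => fn n ω) atTop :=
          lt_of_lt_of_le (ENNReal.sub_lt_self hω2.ne h0 hε.ne') hω
        have h5 := eventually_lt_of_lt_liminf h4
        obtain ⟨n0, hn0⟩ := eventually_atTop.1 h5
        refine ⟨n0, fun n hn => ?_⟩
        have h6 := (hn0 n hn).le
        rw [tsub_le_iff_right] at h6 ⊢
        rw [add_comm]
        exact h6
  refine ⟨hA, ?_⟩
  refine hA.congr' ?_
  filter_upwards [h2] with n hn
  have e1 : ∫⁻ ω, fn n ω ∂μ + ∫⁻ ω, (f ω - fn n ω) ∂μ =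
      ∫⁻ ω, f ω ∂μ + ∫⁻ ω, (fn n ω - f ω) ∂μ := by
    rw [← lintegral_add_left (hfn n), ← lintegral_add_left' hf]
    refine lintegral_congr fun ω => ?_
    rw [add_tsub_eq_max, add_tsub_eq_max, max_comm]
  rw [hn, h1] at e1
  exact (ENNReal.add_right_inj hc).1 e1

/-! ### The trap system -/

section

variable {d : ℕ} {Ω : Type u} [MeasurableSpace Ω] {P : Measure Ω} [IsProbabilityMeasure P]
  {Ω' : Type v} [MeasurableSpace Ω'] {P' : Measure Ω'} [IsProbabilityMeasure P']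
  {κ ρ ν : ℝ≥0} {X : ℝ≥0 → Ω' → Fin d → ℤ} {N : (Fin d → ℤ) → Ω → ℕ}
  {Y : (Fin d → ℤ) → ℕ → ℝ≥0 → Ω → Fin d → ℤ}

theorem law_at (hY : IsWalk P ρ (Y 0 0)) (s : ℝ≥0) (v : Fin d → ℤ) :
    P (Y 0 0 s ⁻¹' {v}) = stepLaw d ρ s {v} := by
  have h1 := hY.law 0 s (zero_le)
  rw [tsub_zero] at h1
  have hm : Measurable fun ω => Y 0 0 s ω - Y 0 0 0 ω := (hY.meas s).sub (hY.meas 0)
  rw [← h1, Measure.map_apply hm (MeasurableSet.singleton _)]
  refine measure_congr ?_
  filter_upwards [hY.zero] with ω hω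
  apply propext
  show Y 0 0 s ω = v ↔ Y 0 0 s ω - Y 0 0 0 ω = v
  rw [hω, sub_zero]

theorem walk_at {W : ℝ≥0 → Ω → Fin d → ℤ} (hW : IsWalk P ρ W) (s : ℝ≥0) (v : Fin d → ℤ) :
    P (W s ⁻¹' {v}) = stepLaw d ρ s {v} := law_at (Y := fun _ _ => W) hW s v

theorem tsum_step {W : ℝ≥0 → Ω → Fin d → ℤ} (hW : IsWalk P ρ W) (s : ℝ≥0) :
    ∑' v, stepLaw d ρ s {v} = 1 := by
  have h1 := hW.law 0 s (zero_le)
  rw [tsub_zero] at h1
  have hm : Measurable fun ω => W s ω - W 0 ω := (hW.meas s).sub (hW.meas 0)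
  have hp : IsProbabilityMeasure (stepLaw d ρ s) := by
    rw [← h1]
    exact Measure.isProbabilityMeasure_map hm.aemeasurable
  have h := lintegral_countable' (μ := stepLaw d ρ s) (fun _ => (1 : ℝ≥0∞))
  simp only [lintegral_const, measure_univ, mul_one, one_mul] at h
  exact h.symm

theorem trapField_meas (hT : TrapSystem P ρ ν N Y) (s : ℝ≥0) (x : Fin d → ℤ) :
    Measurable (trapField N Y s x) := by
  unfold trapField
  refine Measurable.tsum fun y => ?_
  refine sum_range_meas (hT.number_meas y) fun j => ?_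
  refine Measurable.ite ?_ measurable_const measurable_const
  exact measurableSet_eq_fun (measurable_const.add ((hT.trap y j).meas s)) measurable_const

/-- the expected number of traps at a site -/
theorem trapField_mean (hT : TrapSystem P ρ ν N Y) (s : ℝ≥0) (x : Fin d → ℤ) :
    ∫⁻ ω, trapField N Y s x ω ∂P = ν := by
  have hm1 : ∀ y j, Measurable fun ω => (if y + Y y j s ω = x then 1 else 0 : ℝ≥0∞) := by
    intro y j
    refine Measurable.ite ?_ measurable_const measurable_const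
    exact measurableSet_eq_fun (measurable_const.add ((hT.trap y j).meas s)) measurable_const
  unfold trapField
  rw [lintegral_tsum fun y => (sum_range_meas (hT.number_meas y) (hm1 y)).aemeasurable]
  have h1 : ∀ y, ∫⁻ ω, ∑ j ∈ Finset.range (N y ω), (if y + Y y j s ω = x then 1 else 0 : ℝ≥0∞) ∂P =
      ν * stepLaw d ρ s {x - y} := by
    intro y
    have e0 : ∀ ω, ∑ j ∈ Finset.range (N y ω), (if y + Y y j s ω = x then 1 else 0 : ℝ≥0∞) =
        ∑' j, ({ω | j < N y ω} : Set Ω).indicator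
          (fun ω => (if y + Y y j s ω = x then 1 else 0 : ℝ≥0∞)) ω := fun ω =>
      sum_range_eq (N y) (fun j ω => if y + Y y j s ω = x then 1 else 0) ω
    simp_rw [e0]
    rw [lintegral_tsum fun j => ((hm1 y j).indicator
      (measurableSet_lt measurable_const (hT.number_meas y))).aemeasurable]
    have h2 : ∀ j, ∫⁻ ω, ({ω | j < N y ω} : Set Ω).indicator
        (fun ω => (if y + Y y j s ω = x then 1 else 0 : ℝ≥0∞)) ω ∂P =
        P {ω | j < N y ω} * stepLaw d ρ s {x - y} := by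
      intro j
      have hI : IndepFun (N y) (Y y j s) P := by
        have := hT.indepNY
        exact this.comp (measurable_pi_apply y)
          ((measurable_pi_apply s).comp (measurable_pi_apply (y, j)))
      have h3 := hI.measure_inter_preimage_eq_mul {n | j < n} {x - y}
        (MeasurableSet.of_discrete) (MeasurableSet.singleton _)
      have h4 : P (Y y j s ⁻¹' {x - y}) = stepLaw d ρ s {x - y} := walk_at (hT.trap y j) s _
      rw [h4] at h3
      have h5 : P (N y ⁻¹' {n | j < n} ∩ Y y j s ⁻¹' {x - y}) = _ := h3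
      have hms : MeasurableSet (N y ⁻¹' {n | j < n} ∩ Y y j s ⁻¹' {x - y}) :=
        ((hT.number_meas y) MeasurableSet.of_discrete).inter
          ((hT.trap y j).meas s (MeasurableSet.singleton _))
      have h6 : P {ω | j < N y ω} = P (N y ⁻¹' {n | j < n}) := rfl
      rw [h6, ← h5, ← lintegral_indicator_one hms]
      refine lintegral_congr fun ω => ?_
      by_cases ha : j < N y ω
      · by_cases hb : y + Y y j s ω = x
        · rw [Set.indicator_of_mem (show ω ∈ {ω | j < N y ω} from ha), if_pos hb,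
            Set.indicator_of_mem]
          · rfl
          · refine ⟨ha, ?_⟩
            show Y y j s ω = x - y
            rw [← hb]; abel
        · rw [Set.indicator_of_mem (show ω ∈ {ω | j < N y ω} from ha), if_neg hb,
            Set.indicator_of_notMem]
          rintro ⟨_, hc⟩
          apply hb
          have hc' : Y y j s ω = x - y := hc
          rw [hc']; abel
      · rw [Set.indicator_of_notMem (show ω ∉ {ω | j < N y ω} from ha), Set.indicator_of_notMem]
        rintro ⟨hc, _⟩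
        exact ha hc
    simp_rw [h2]
    rw [ENNReal.tsum_mul_right]
    congr 1
    rw [← poisson_mean ν, ← hT.number y, lintegral_map (measurable_of_countable _)
      (hT.number_meas y)]
    have h7 : ∀ ω, ((N y ω : ℕ) : ℝ≥0∞) = ∑' j, ({ω | j < N y ω} : Set Ω).indicator 1 ω := by
      intro ω
      have := sum_range_eq (N y) (fun _ _ => 1) ω
      simp only [Finset.sum_const, Finset.card_range, nsmul_eq_mul, mul_one] at this
      exact this
    simp_rw [h7]
    rw [lintegral_tsum fun j => (measurable_one.indicator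
      (measurableSet_lt measurable_const (hT.number_meas y))).aemeasurable]
    refine tsum_congr fun j => ?_
    rw [lintegral_indicator_one (measurableSet_lt measurable_const (hT.number_meas y))]
  simp_rw [h1]
  rw [ENNReal.tsum_mul_left]
  have h8 : ∑' y, stepLaw d ρ s {x - y} = 1 := by
    rw [← tsum_step (hT.trap 0 0) s, ← (Equiv.subLeft x).tsum_eq (fun v => stepLaw d ρ s {v})]
    rfl
  rw [h8, mul_one]

/-- the field at the walk, on the product space -/
noncomputable def TF (X : ℝ≥0 → Ω' → Fin d → ℤ) (N : (Fin d → ℤ) → Ω → ℕ)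
    (Y : (Fin d → ℤ) → ℕ → ℝ≥0 → Ω → Fin d → ℤ) (s : ℝ≥0) (p : Ω' × Ω) : ℝ≥0∞ :=
  trapField N Y s (X s p.1) p.2

theorem TF_meas (hX : IsWalk P' κ X) (hT : TrapSystem P ρ ν N Y) (s : ℝ≥0) :
    Measurable (TF X N Y s) := by
  have hHm : Measurable fun q : (Fin d → ℤ) × Ω => trapField N Y s q.1 q.2 := by
    refine measurable_from_prod_countable_right fun a => ?_
    exact trapField_meas hT s a
  exact hHm.comp (((hX.meas s).comp measurable_fst).prodMk measurable_snd)

theorem TF_mean (hX : IsWalk P' κ X) (hT : TrapSystem P ρ ν N Y) (s : ℝ≥0) :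
    ∫⁻ p, TF X N Y s p ∂(P'.prod P) = ν := by
  rw [lintegral_prod _ (TF_meas hX hT s).aemeasurable]
  have h1 : ∀ ω', ∫⁻ ω, TF X N Y s (ω', ω) ∂P = ν := fun ω' => trapField_mean hT s (X s ω')
  simp_rw [h1]
  simp

theorem hitsg_eq (h : ℝ≥0) (m : ℕ) (p : Ω' × Ω) :
    hitsg N Y h m (fun k => X (k * h) p.1) p.2 = ∑ k ∈ Finset.Icc 1 m, TF X N Y (k * h) p := by
  classical
  unfold hitsg TF trapField
  rw [← Summable.tsum_finsetSum (fun _ _ => ENNReal.summable)]
  refine tsum_congr fun y => ?_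
  rw [Finset.sum_comm]
  refine Finset.sum_congr rfl fun j _ => ?_
  rw [Finset.card_filter]
  push_cast
  refine Finset.sum_congr rfl fun k _ => ?_
  congr

/-- grid exposure -/
noncomputable def expg (X : ℝ≥0 → Ω' → Fin d → ℤ) (N : (Fin d → ℤ) → Ω → ℕ)
    (Y : (Fin d → ℤ) → ℕ → ℝ≥0 → Ω → Fin d → ℤ) (h : ℝ≥0) (m : ℕ) (p : Ω' × Ω) : ℝ≥0∞ :=
  h * hitsg N Y h m (fun k => X (k * h) p.1) p.2

theorem expg_meas (hX : IsWalk P' κ X) (hT : TrapSystem P ρ ν N Y) (h : ℝ≥0) (m : ℕ) :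
    Measurable (expg X N Y h m) := by
  unfold expg
  simp_rw [hitsg_eq]
  refine Measurable.const_mul (Finset.measurable_sum _ fun k _ => ?_) _
  exact TF_meas hX hT _

theorem expg_mean (hX : IsWalk P' κ X) (hT : TrapSystem P ρ ν N Y) (h : ℝ≥0) (m : ℕ) :
    ∫⁻ p, expg X N Y h m p ∂(P'.prod P) = h * (m * ν) := by
  unfold expg
  simp_rw [hitsg_eq]
  rw [lintegral_const_mul _ (Finset.measurable_sum _ fun k _ => TF_meas hX hT _),
    lintegral_finsetSum _ fun k _ => TF_meas hX hT _]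
  simp_rw [TF_mean hX hT]
  simp

/-- right-continuity of all paths -/
def Good (X : ℝ≥0 → Ω' → Fin d → ℤ) (Y : (Fin d → ℤ) → ℕ → ℝ≥0 → Ω → Fin d → ℤ)
    (p : Ω' × Ω) : Prop :=
  (∀ t, ∀ᶠ u in 𝓝[≥] t, X u p.1 = X t p.1) ∧
    ∀ y j, ∀ t, ∀ᶠ u in 𝓝[≥] t, Y y j u p.2 = Y y j t p.2

theorem ae_good (hX : IsWalk P' κ X) (hT : TrapSystem P ρ ν N Y) :
    ∀ᵐ p ∂(P'.prod P), Good X Y p := by
  have h1 : ∀ᵐ ω ∂P, ∀ y j, ∀ t, ∀ᶠ u in 𝓝[≥] t, Y y j u ω = Y y j t ω := by
    rw [ae_all_iff]; intro y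
    rw [ae_all_iff]; intro j
    exact (hT.trap y j).rightCont
  have h2 : ∀ᵐ p ∂(P'.prod P), ∀ t, ∀ᶠ u in 𝓝[≥] t, X u p.1 = X t p.1 :=
    Measure.quasiMeasurePreserving_fst.ae hX.rightCont
  have h3 : ∀ᵐ p ∂(P'.prod P), ∀ y j, ∀ t, ∀ᶠ u in 𝓝[≥] t, Y y j u p.2 = Y y j t p.2 :=
    Measure.quasiMeasurePreserving_snd.ae h1
  filter_upwards [h2, h3] with p ha hb
  exact ⟨ha, hb⟩

omit [MeasurableSpace Ω] [MeasurableSpace Ω'] in
theorem trap_liminf {t : ℝ≥0} (ht : 0 < t) {s : ℝ} (hs : 0 ≤ s) {p : Ω' × Ω} (hp : Good X Y p) :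
    TF X N Y s.toNNReal p ≤ liminf (fun n : ℕ => TF X N Y (apx (t / n) s) p) atTop := by
  classical
  have hX : ∀ᶠ n : ℕ in atTop, X (apx (t / n) s) p.1 = X s.toNNReal p.1 :=
    (apx_tendsto ht hs).eventually (hp.1 s.toNNReal)
  have hY : ∀ y j, ∀ᶠ n : ℕ in atTop, Y y j (apx (t / n) s) p.2 = Y y j s.toNNReal p.2 :=
    fun y j => (apx_tendsto ht hs).eventually (hp.2 y j s.toNNReal)
  conv_lhs => unfold TF trapField
  rw [ENNReal.tsum_eq_iSup_sum]
  refine iSup_le fun S => ?_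
  refine le_liminf_of_le (by isBoundedDefault) ?_
  have h1 : ∀ᶠ n : ℕ in atTop, ∀ y ∈ S, ∀ j ∈ Finset.range (N y p.2),
      Y y j (apx (t / n) s) p.2 = Y y j s.toNNReal p.2 := by
    rw [Finset.eventually_all]
    intro y _
    rw [Finset.eventually_all]
    intro j _
    exact hY y j
  filter_upwards [hX, h1] with n h2 h3
  calc ∑ y ∈ S, ∑ j ∈ Finset.range (N y p.2),
        (if y + Y y j s.toNNReal p.2 = X s.toNNReal p.1 then 1 else 0 : ℝ≥0∞)
      = ∑ y ∈ S, ∑ j ∈ Finset.range (N y p.2),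
        (if y + Y y j (apx (t / n) s) p.2 = X (apx (t / n) s) p.1 then 1 else 0 : ℝ≥0∞) := by
        refine Finset.sum_congr rfl fun y hy => Finset.sum_congr rfl fun j hj => ?_
        rw [h2, h3 y hy j hj]
    _ ≤ _ := ENNReal.sum_le_tsum S

/-- the exposure on the product space -/
noncomputable def ex (X : ℝ≥0 → Ω' → Fin d → ℤ) (N : (Fin d → ℤ) → Ω → ℕ)
    (Y : (Fin d → ℤ) → ℕ → ℝ≥0 → Ω → Fin d → ℤ) (t : ℝ≥0) (p : Ω' × Ω) : ℝ≥0∞ :=
  pathExposure N Y t (fun s => X s p.1) p.2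

theorem ex_eq (t : ℝ≥0) (p : Ω' × Ω) :
    ex X N Y t p = ∫⁻ s in Set.Icc (0 : ℝ) t, TF X N Y s.toNNReal p := rfl

theorem expg_eq {t : ℝ≥0} (ht : 0 < t) {n : ℕ} (hn : 1 ≤ n) (p : Ω' × Ω) :
    expg X N Y (t / n) n p = ∫⁻ s in Set.Icc (0 : ℝ) t, TF X N Y (apx (t / n) s) p := by
  have h1 := lintegral_ceil (fun k => TF X N Y (k * (t / n)) p) (mesh_pos ht hn) n
  have h2 : (n : ℝ) * ((t / n : ℝ≥0) : ℝ) = t := by
    have := congrArg (fun a : ℝ≥0 => (a : ℝ)) (mesh_mul t hn)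
    simpa using this
  rw [h2] at h1
  unfold expg
  rw [hitsg_eq, ← h1]
  rfl

theorem ex_liminf {t : ℝ≥0} (ht : 0 < t) {p : Ω' × Ω} (hp : Good X Y p) :
    ex X N Y t p ≤ liminf (fun n : ℕ => expg X N Y (t / n) n p) atTop := by
  have h1 : liminf (fun n : ℕ => expg X N Y (t / n) n p) atTop =
      liminf (fun n : ℕ => ∫⁻ s in Set.Icc (0 : ℝ) t, TF X N Y (apx (t / n) s) p) atTop := by
    apply liminf_congr
    filter_upwards [eventually_ge_atTop 1] with n hn
    exact expg_eq ht hn p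
  rw [h1, ex_eq]
  refine le_trans ?_ (lintegral_liminf_le fun n => ?_)
  · exact setLIntegral_mono' measurableSet_Icc fun s hs => trap_liminf ht hs.1 hp
  · have h2 : Measurable fun s : ℝ => ⌈s / ((t / n : ℝ≥0) : ℝ)⌉₊ :=
      Nat.measurable_ceil.comp (measurable_id.div_const _)
    exact (measurable_of_countable fun k : ℕ => TF X N Y (k * (t / n)) p).comp h2

/-- joint measurability -/
theorem joint_meas (hX : IsWalk P' κ X) (hT : TrapSystem P ρ ν N Y) {t : ℝ≥0} (ht : 0 < t) :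
    AEMeasurable (fun p : (Ω' × Ω) × ℝ => TF X N Y p.2.toNNReal p.1)
      ((P'.prod P).prod (volume.restrict (Set.Icc (0 : ℝ) t))) := by
  classical
  set μ := (P'.prod P).prod (volume.restrict (Set.Icc (0 : ℝ) t)) with hμ
  have hgood : ∀ᵐ p ∂μ, Good X Y p.1 ∧ 0 ≤ p.2 := by
    have h1 : ∀ᵐ p ∂μ, Good X Y p.1 := Measure.quasiMeasurePreserving_fst.ae (ae_good hX hT)
    have h2 : ∀ᵐ s ∂(volume.restrict (Set.Icc (0 : ℝ) t)), (0 : ℝ) ≤ s := by
      filter_upwards [ae_restrict_mem measurableSet_Icc] with s hs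
      exact hs.1
    have h3 : ∀ᵐ p ∂μ, (0 : ℝ) ≤ p.2 := Measure.quasiMeasurePreserving_snd.ae h2
    filter_upwards [h1, h3] with p ha hb
    exact ⟨ha, hb⟩
  have hterm : ∀ y j, AEMeasurable (fun p : (Ω' × Ω) × ℝ =>
      ({q | j < N y q.2} : Set (Ω' × Ω)).indicator
      (fun q => (if y + Y y j p.2.toNNReal q.2 = X p.2.toNNReal q.1 then 1 else 0 : ℝ≥0∞))
        p.1) μ := by
    intro y j
    refine aemeasurable_of_tendsto_metrizable_ae' (f := fun (n : ℕ) (p : (Ω' × Ω) × ℝ) =>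
      ({q | j < N y q.2} : Set (Ω' × Ω)).indicator (fun q =>
        (if y + Y y j (apx (t / n) p.2) q.2 = X (apx (t / n) p.2) q.1 then 1 else 0 : ℝ≥0∞))
          p.1) ?_ ?_
    · intro n
      have h1 : Measurable fun q : (Ω' × Ω) × ℕ =>
          ({q | j < N y q.2} : Set (Ω' × Ω)).indicator (fun r =>
          (if y + Y y j ((q.2 : ℝ≥0) * (t / n)) r.2 = X ((q.2 : ℝ≥0) * (t / n)) r.1 then 1 else 0 :
            ℝ≥0∞)) q.1 := by
        refine measurable_from_prod_countable_left fun k => ?_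
        refine Measurable.indicator ?_ (measurableSet_lt measurable_const
          ((hT.number_meas y).comp measurable_snd))
        refine Measurable.ite ?_ measurable_const measurable_const
        exact measurableSet_eq_fun
          (measurable_const.add (((hT.trap y j).meas (k * (t / n))).comp measurable_snd))
          ((hX.meas (k * (t / n))).comp measurable_fst)
      have h2 : Measurable fun p : (Ω' × Ω) × ℝ =>
          ((p.1, ⌈p.2 / ((t / n : ℝ≥0) : ℝ)⌉₊) : (Ω' × Ω) × ℕ) :=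
        measurable_fst.prodMk (Nat.measurable_ceil.comp (measurable_snd.div_const _))
      exact (h1.comp h2).aemeasurable
    · filter_upwards [hgood] with p hp
      have hX : ∀ᶠ n : ℕ in atTop, X (apx (t / n) p.2) p.1.1 = X p.2.toNNReal p.1.1 :=
        (apx_tendsto ht hp.2).eventually (hp.1.1 p.2.toNNReal)
      have hY : ∀ᶠ n : ℕ in atTop, Y y j (apx (t / n) p.2) p.1.2 = Y y j p.2.toNNReal p.1.2 :=
        (apx_tendsto ht hp.2).eventually (hp.1.2 y j p.2.toNNReal)
      refine Tendsto.congr' ?_ tendsto_const_nhds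
      filter_upwards [hX, hY] with n h1 h2
      simp only [Set.indicator_apply, h1, h2]
  have h4 : (fun p : (Ω' × Ω) × ℝ => TF X N Y p.2.toNNReal p.1) =
      fun p : (Ω' × Ω) × ℝ => ∑' y, ∑' j, ({q | j < N y q.2} : Set (Ω' × Ω)).indicator
      (fun q => (if y + Y y j p.2.toNNReal q.2 = X p.2.toNNReal q.1 then 1 else 0 : ℝ≥0∞))
        p.1 := by
    funext p
    unfold TF trapField
    refine tsum_congr fun y => ?_
    exact sum_range_eq (fun q : Ω' × Ω => N y q.2) (fun j q =>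
      if y + Y y j p.2.toNNReal q.2 = X p.2.toNNReal q.1 then 1 else 0) p.1
  rw [h4]
  exact AEMeasurable.tsum fun y => AEMeasurable.tsum fun j => hterm y j

theorem ex_aemeas (hX : IsWalk P' κ X) (hT : TrapSystem P ρ ν N Y) {t : ℝ≥0} (ht : 0 < t) :
    AEMeasurable (ex X N Y t) (P'.prod P) :=
  (joint_meas hX hT ht).lintegral_prod_right'

theorem ex_mean (hX : IsWalk P' κ X) (hT : TrapSystem P ρ ν N Y) {t : ℝ≥0} (ht : 0 < t) :
    ∫⁻ p, ex X N Y t p ∂(P'.prod P) = t * ν := by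
  simp_rw [ex_eq]
  rw [lintegral_lintegral_swap (joint_meas hX hT ht)]
  have : ∀ s : ℝ, ∫⁻ p, TF X N Y s.toNNReal p ∂(P'.prod P) = ν := fun s => TF_mean hX hT _
  simp_rw [this]
  rw [setLIntegral_const, Real.volume_Icc, sub_zero, ENNReal.ofReal_coe_nnreal, mul_comm]

end

theorem main : LIM_T.{u, v} := by
  intro d Ω _ P _ Ω' _ P' _ κ ρ ν X N Y hX hT t ht
  have hc : (t : ℝ≥0∞) * ν ≠ ∞ := ENNReal.mul_ne_top ENNReal.coe_ne_top ENNReal.coe_ne_top
  have hmean : ∀ᶠ n : ℕ in atTop, ∫⁻ p, expg X N Y (t / n) n p ∂(P'.prod P) = t * ν := by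
    filter_upwards [eventually_ge_atTop 1] with n hn
    rw [expg_mean hX hT, ← mul_assoc]
    congr 1
    have := mesh_mul t hn
    rw [mul_comm]
    exact_mod_cast congrArg (fun a : ℝ≥0 => (a : ℝ≥0∞)) this
  have hS := scheffe (μ := P'.prod P) (f := ex X N Y t)
    (fn := fun n : ℕ => expg X N Y (t / n) n) (ex_aemeas hX hT ht)
    (fun n => expg_meas hX hT _ _) hc (ex_mean hX hT ht) hmean (by
      filter_upwards [ae_good hX hT] with p hp
      exact ex_liminf ht hp)
  refine ⟨ex_aemeas hX hT ht, ?_⟩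
  have h2 := hS.1.add hS.2
  rw [add_zero] at h2
  refine h2.congr fun n => ?_
  have hm : AEMeasurable (fun p => ex X N Y t p - expg X N Y (t / n) n p) (P'.prod P) :=
    (ex_aemeas hX hT ht).sub (expg_meas hX hT _ _).aemeasurable
  rw [← lintegral_add_left' hm]
  rfl

end Pool.Agent.W381.QTLIM
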