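import Pool.Agent.W983.PL.Stm

/-!
# MP_fe6d1a_gt: PC-MAP
-/
set_option autoImplicit false
open Set Topology

namespace Pool.Agent.W381.PCMap

open Pool.Agent.W983.PL

theorem vals (hBC : S_BC) {F : ℕ → ℝ ≃o ℝ} (hF : IsLift F) (k : ℕ) :
    F k (-bb k) = 1 / 2 - cc k ∧ F k (bb k) = 1 / 2 - bb k ∧ F k (cc k) = 1 / 2 + bb k ∧
      F k (1 - cc k) = 1 / 2 + cc k ∧ F k (1 - bb k) = 3 / 2 - cc k := by
  obtain ⟨h1, h2, -, h3, h4, -⟩ := hBC.1 k
  have e1 : F k (-bb k) = 1 / 2 - cc k := by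
    rw [hF.L k (-bb k) le_rfl (by linarith)]
    ring
  refine ⟨e1, ?_, ?_, ?_, ?_⟩
  · rw [hF.Y k (bb k) le_rfl h2.le]
    ring
  · rw [hF.T k (cc k) le_rfl (by linarith)]
    ring
  · rw [hF.R k (1 - cc k) le_rfl (by linarith)]
    ring
  · have h := hF.per k (-bb k)
    rw [show (1 : ℝ) - bb k = -bb k + 1 by ring, h, e1]
    ring

theorem inv_eq {F : ℕ → ℝ ≃o ℝ} {g : ℕ → HC} (hg : IsGen F g) (k : ℕ) (s : ℝ) :
    (g k)⁻¹ (E s) = E ((F k).symm s) := by
  have h : g k (E ((F k).symm s)) = E s := by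
    rw [hg.gE, OrderIso.apply_symm_apply]
  rw [← h]
  exact (g k).symm_apply_apply _

theorem map (hBC : S_BC) : S_MAP := by
  intro F g hg k z
  have hF := hg.lift
  obtain ⟨h1, h2, -, h3, h4, -⟩ := hBC.1 k
  obtain ⟨v1, v2, v3, v4, v5⟩ := vals hBC hF k
  have z0 := co_nonneg z
  have z1 := co_lt_one z
  have hz := E_co z
  have mono : ∀ s t : ℝ, s ≤ t → F k s ≤ F k t := fun s t h => (F k).monotone h
  have monos : ∀ s t : ℝ, s ≤ t → (F k).symm s ≤ (F k).symm t := fun s t h =>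
    (F k).symm.monotone h
  have w2 : (F k).symm (1 / 2 - bb k) = bb k := by rw [← v2, OrderIso.symm_apply_apply]
  have w3 : (F k).symm (1 / 2 + bb k) = cc k := by rw [← v3, OrderIso.symm_apply_apply]
  have w4 : (F k).symm (1 / 2 + cc k) = 1 - cc k := by rw [← v4, OrderIso.symm_apply_apply]
  have w5 : (F k).symm (3 / 2 - cc k) = 1 - bb k := by rw [← v5, OrderIso.symm_apply_apply]
  refine ⟨?_, ?_, ?_, ?_⟩
  · intro hL
    have key : ∀ t : ℝ, -bb k ≤ t → t ≤ bb k → E (F k t) ∈ DX k := by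
      intro t ht1 ht2
      have a1 := mono _ _ ht1
      have a2 := mono _ _ ht2
      rw [v1] at a1
      rw [v2] at a2
      show 1 / 2 - cc k ≤ co (E (F k t)) ∧ co (E (F k t)) ≤ 1 / 2 - bb k
      rw [co_E_of (by linarith) (by linarith)]
      exact ⟨a1, a2⟩
    rcases hL with h | h
    · rw [← hz, hg.gE]
      exact key _ (by linarith) h
    · have e1 : E (F k (co z)) = E (F k (co z - 1)) := by
        have := hF.per k (co z - 1)
        rw [sub_add_cancel] at this
        rw [this, E_add_one]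
      rw [← hz, hg.gE, e1]
      exact key _ (by linarith) (by linarith)
  · intro hT
    have a1 := mono _ _ hT.1
    have a2 := mono _ _ hT.2
    rw [v3] at a1
    rw [v4] at a2
    rw [← hz, hg.gE]
    show 1 / 2 + bb k ≤ co (E (F k (co z))) ∧ co (E (F k (co z))) ≤ 1 / 2 + cc k
    rw [co_E_of (by linarith) (by linarith)]
    exact ⟨a1, a2⟩
  · intro hI
    have a1 := monos _ _ hI.1
    have a2 := monos _ _ hI.2
    rw [w2] at a1
    rw [w3] at a2
    have e : (g k)⁻¹ z = E ((F k).symm (co z)) := by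
      rw [← inv_eq hg k (co z), hz]
    rw [e]
    show bb k ≤ co (E ((F k).symm (co z))) ∧ co (E ((F k).symm (co z))) ≤ cc k
    rw [co_E_of (by linarith) (by linarith)]
    exact ⟨a1, a2⟩
  · intro hO
    have key : ∀ s : ℝ, 1 / 2 + cc k ≤ s → s ≤ 3 / 2 - cc k → E ((F k).symm s) ∈ DR k := by
      intro s hs1 hs2
      have a1 := monos _ _ hs1
      have a2 := monos _ _ hs2
      rw [w4] at a1
      rw [w5] at a2
      show 1 - cc k ≤ co (E ((F k).symm s)) ∧ co (E ((F k).symm s)) ≤ 1 - bb k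
      rw [co_E_of (by linarith) (by linarith)]
      exact ⟨a1, a2⟩
    rcases hO with h | h
    · have e : (g k)⁻¹ z = E ((F k).symm (co z + 1)) := by
        rw [← inv_eq hg k (co z + 1), E_add_one, hz]
      rw [e]
      exact key _ (by linarith) (by linarith)
    · have e : (g k)⁻¹ z = E ((F k).symm (co z)) := by
        rw [← inv_eq hg k (co z), hz]
      rw [e]
      exact key _ h (by linarith)

end Pool.Agent.W381.PCMap
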