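import Pool.Agent.W894.HT.Gr

/-!
# Project HT: one gadget
-/

namespace Pool.Agent.W381.HTGad

open Pool.Agent.W894.HT

section pos

variable {N : Type}

open Classical in
/-- the position of `b` in `l`, counted from one; zero if `b` is not in `l` -/
noncomputable def pos (l : List N) (b : N) : ℕ := if b ∈ l then l.idxOf b + 1 else 0

theorem mem_iff {l : List N} {b : N} : b ∈ l ↔ pos l b ≠ 0 := by
  unfold pos
  split_ifs with h
  · simp [h]
  · simp [h]

theorem get_iff {l : List N} (hl : l.Nodup) {k : ℕ} {b : N} :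
    l[k]? = some b ↔ pos l b = k + 1 := by
  classical
  constructor
  · intro h
    obtain ⟨hk, hb⟩ := List.getElem?_eq_some_iff.mp h
    have hm : b ∈ l := hb ▸ List.getElem_mem hk
    unfold pos
    rw [if_pos hm, ← hb, hl.idxOf_getElem]
  · intro h
    have hm : b ∈ l := mem_iff.mpr (by omega)
    unfold pos at h
    rw [if_pos hm] at h
    have h1 : l.idxOf b = k := by omega
    rw [← h1]
    exact List.getElem?_idxOf hm

theorem pos_inj {l : List N} {b c : N} (h : pos l b = pos l c) (h0 : pos l b ≠ 0) : b = c := by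
  classical
  have hb : b ∈ l := mem_iff.mpr h0
  have hc : c ∈ l := mem_iff.mpr (h ▸ h0)
  unfold pos at h
  rw [if_pos hb, if_pos hc] at h
  have h1 := List.getElem?_idxOf hb
  have h2 := List.getElem?_idxOf hc
  rw [show l.idxOf b = l.idxOf c by omega, h2] at h1
  exact (Option.some.inj h1).symm

theorem ne_pos {l : List N} {b c : N} (h : b ≠ c) : pos l b ≠ pos l c ∨ pos l b = 0 := by
  by_contra hc
  push Not at hc
  exact h (pos_inj hc.1 hc.2)

theorem inf_iff {l : List N} (hl : l.Nodup) (w : List N) :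
    w <:+: l ↔ ∃ k, w.length + k ≤ l.length ∧ ∀ i (h : i < w.length), pos l w[i] = i + k + 1 := by
  rw [List.infix_iff_getElem?]
  constructor
  · rintro ⟨k, h1, h2⟩
    exact ⟨k, h1, fun i hi => (get_iff hl).mp (h2 i hi)⟩
  · rintro ⟨k, h1, h2⟩
    exact ⟨k, h1, fun i hi => (get_iff hl).mpr (h2 i hi)⟩

theorem pos_le (l : List N) (b : N) : pos l b ≤ l.length := by
  classical
  unfold pos
  split_ifs with h
  · exact List.idxOf_lt_length_of_mem h
  · omega

theorem inf2 {l : List N} (hl : l.Nodup) {b c : N} :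
    [b, c] <:+: l ↔ pos l b ≠ 0 ∧ pos l c = pos l b + 1 := by
  rw [inf_iff hl]
  constructor
  · rintro ⟨k, -, h⟩
    have h0 := h 0 (by simp)
    have h1 := h 1 (by simp)
    simp only [List.getElem_cons_zero, List.getElem_cons_succ] at h0 h1
    omega
  · rintro ⟨h1, h2⟩
    refine ⟨pos l b - 1, ?_, ?_⟩
    · have := pos_le l c
      simp only [List.length_cons, List.length_nil]
      omega
    · intro i hi
      simp only [List.length_cons, List.length_nil] at hi
      rcases i with _ | _ | i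
      · simp only [List.getElem_cons_zero]; omega
      · simp only [List.getElem_cons_zero, List.getElem_cons_succ]; omega
      · omega

theorem inf3 {l : List N} (hl : l.Nodup) {b c d : N} :
    [b, c, d] <:+: l ↔ pos l b ≠ 0 ∧ pos l c = pos l b + 1 ∧ pos l d = pos l b + 2 := by
  rw [inf_iff hl]
  constructor
  · rintro ⟨k, -, h⟩
    have h0 := h 0 (by simp)
    have h1 := h 1 (by simp)
    have h2 := h 2 (by simp)
    simp only [List.getElem_cons_zero, List.getElem_cons_succ] at h0 h1 h2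
    omega
  · rintro ⟨h1, h2, h3⟩
    refine ⟨pos l b - 1, ?_, ?_⟩
    · have := pos_le l d
      simp only [List.length_cons, List.length_nil]
      omega
    · intro i hi
      simp only [List.length_cons, List.length_nil] at hi
      rcases i with _ | _ | _ | i
      · simp only [List.getElem_cons_zero]; omega
      · simp only [List.getElem_cons_zero, List.getElem_cons_succ]; omega
      · simp only [List.getElem_cons_zero, List.getElem_cons_succ]; omega
      · omega

theorem inf4 {l : List N} (hl : l.Nodup) {b c d e : N} :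
    [b, c, d, e] <:+: l ↔ pos l b ≠ 0 ∧ pos l c = pos l b + 1 ∧ pos l d = pos l b + 2 ∧
      pos l e = pos l b + 3 := by
  rw [inf_iff hl]
  constructor
  · rintro ⟨k, -, h⟩
    have h0 := h 0 (by simp)
    have h1 := h 1 (by simp)
    have h2 := h 2 (by simp)
    have h3 := h 3 (by simp)
    simp only [List.getElem_cons_zero, List.getElem_cons_succ] at h0 h1 h2 h3
    omega
  · rintro ⟨h1, h2, h3, h4⟩
    refine ⟨pos l b - 1, ?_, ?_⟩
    · have := pos_le l e
      simp only [List.length_cons, List.length_nil]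
      omega
    · intro i hi
      simp only [List.length_cons, List.length_nil] at hi
      rcases i with _ | _ | _ | _ | i
      · simp only [List.getElem_cons_zero]; omega
      · simp only [List.getElem_cons_zero, List.getElem_cons_succ]; omega
      · simp only [List.getElem_cons_zero, List.getElem_cons_succ]; omega
      · simp only [List.getElem_cons_zero, List.getElem_cons_succ]; omega
      · omega

theorem inf5 {l : List N} (hl : l.Nodup) {b c d e f : N} :
    [b, c, d, e, f] <:+: l ↔ pos l b ≠ 0 ∧ pos l c = pos l b + 1 ∧ pos l d = pos l b + 2 ∧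
      pos l e = pos l b + 3 ∧ pos l f = pos l b + 4 := by
  rw [inf_iff hl]
  constructor
  · rintro ⟨k, -, h⟩
    have h0 := h 0 (by simp)
    have h1 := h 1 (by simp)
    have h2 := h 2 (by simp)
    have h3 := h 3 (by simp)
    have h4 := h 4 (by simp)
    simp only [List.getElem_cons_zero, List.getElem_cons_succ] at h0 h1 h2 h3 h4
    omega
  · rintro ⟨h1, h2, h3, h4, h5⟩
    refine ⟨pos l b - 1, ?_, ?_⟩
    · have := pos_le l f
      simp only [List.length_cons, List.length_nil]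
      omega
    · intro i hi
      simp only [List.length_cons, List.length_nil] at hi
      rcases i with _ | _ | _ | _ | _ | i
      · simp only [List.getElem_cons_zero]; omega
      · simp only [List.getElem_cons_zero, List.getElem_cons_succ]; omega
      · simp only [List.getElem_cons_zero, List.getElem_cons_succ]; omega
      · simp only [List.getElem_cons_zero, List.getElem_cons_succ]; omega
      · simp only [List.getElem_cons_zero, List.getElem_cons_succ]; omega
      · omega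

/-- an inner element has a predecessor -/
theorem exists_pred {l : List N} (hl : l.Nodup) {b : N} (hb : pos l b ≠ 0)
    (h : l.head? ≠ some b) : ∃ c, [c, b] <:+: l := by
  obtain ⟨k, hk⟩ : ∃ k, pos l b = k + 1 := ⟨pos l b - 1, by omega⟩
  have hk0 : k ≠ 0 := by
    rintro rfl
    apply h
    rw [List.head?_eq_getElem?]
    exact (get_iff hl).mpr hk
  have hlen := pos_le l b
  have hk1 : k - 1 < l.length := by omega
  refine ⟨l[k - 1], (inf2 hl).mpr ?_⟩
  have h1 : pos l l[k - 1] = k - 1 + 1 := (get_iff hl).mp (List.getElem?_eq_getElem hk1)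
  omega

/-- an inner element has a successor -/
theorem exists_succ {l : List N} (hl : l.Nodup) {b : N} (hb : pos l b ≠ 0)
    (h : l.getLast? ≠ some b) : ∃ c, [b, c] <:+: l := by
  obtain ⟨k, hk⟩ : ∃ k, pos l b = k + 1 := ⟨pos l b - 1, by omega⟩
  have hlen := pos_le l b
  have hk1 : k + 1 < l.length := by
    by_contra hc
    apply h
    rw [List.getLast?_eq_getElem?]
    exact (get_iff hl).mpr (by omega)
  refine ⟨l[k + 1], (inf2 hl).mpr ?_⟩
  have h1 : pos l l[k + 1] = k + 1 + 1 := (get_iff hl).mp (List.getElem?_eq_getElem hk1)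
  omega

end pos

/-- a toggle, with the new set described by its members -/
theorem tog (h : S_TOG) (N : Type) (Q : Finset (List N)) (u v : N) (w : List N) (hw : w ≠ [])
    (huv : u ≠ v) (hQ : ∀ l ∈ Q, l.Nodup)
    (h1 : ∀ A B : List N, (A ++ u :: v :: B ∈ Q ∧ ∀ z ∈ w, z ∉ A ++ u :: v :: B) ↔
      A ++ u :: (w ++ v :: B) ∈ Q)
    (h2 : ∀ A B : List N, (A ++ v :: u :: B ∈ Q ∧ ∀ z ∈ w, z ∉ A ++ v :: u :: B) ↔
      A ++ v :: (w.reverse ++ u :: B) ∈ Q) :
    ∃ Q' : Finset (List N), Q.card % 2 = Q'.card % 2 ∧ ∀ l, l ∈ Q' ↔ (l ∈ Q ∧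
      ¬ (([u, v] <:+: l ∨ [v, u] <:+: l) ∧ ∀ z ∈ w, z ∉ l) ∧
      ¬ (u :: (w ++ [v]) <:+: l ∨ v :: (w.reverse ++ [u]) <:+: l)) := by
  classical
  refine ⟨_, h N Q u v w hw huv hQ h1 h2, fun l => ?_⟩
  rw [Finset.mem_filter]

/-- the first toggle condition in terms of positions -/
def C1 (X Y A : ℕ) : Prop :=
  ¬ (((Y ≠ 0 ∧ A = Y + 1) ∨ (A ≠ 0 ∧ Y = A + 1)) ∧ X = 0) ∧
  ¬ ((Y ≠ 0 ∧ X = Y + 1 ∧ A = Y + 2) ∨ (A ≠ 0 ∧ X = A + 1 ∧ Y = A + 2))

theorem C1_y0 (X A : ℕ) : C1 X 0 A := by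
  refine ⟨?_, ?_⟩
  · rintro ⟨h | h, -⟩ <;> omega
  · rintro (h | h) <;> omega

theorem C1_x0 {X Y A : ℕ} (h : C1 X Y A) (hX : X = 0) (hA : Y ≠ 0) (h2 : A = Y + 1) : False :=
  h.1 ⟨Or.inl ⟨hA, h2⟩, hX⟩

theorem C1_xya {X Y A : ℕ} (h : X ≠ 0 ∧ Y = X + 1 ∧ A = X + 2) : C1 X Y A := by
  refine ⟨?_, ?_⟩
  · rintro ⟨-, h0⟩; exact h.1 h0
  · rintro (h | h) <;> omega

theorem C1_ayx {X Y A : ℕ} (h : A ≠ 0 ∧ Y = A + 1 ∧ X = A + 2) : C1 X Y A := by
  refine ⟨?_, ?_⟩
  · rintro ⟨-, h0⟩; omega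
  · rintro (h | h) <;> omega

theorem C1_pyxq {X Y A P R : ℕ} (h : P ≠ 0 ∧ Y = P + 1 ∧ X = P + 2 ∧ R = P + 3)
    (d : R ≠ A ∨ R = 0) : C1 X Y A := by
  refine ⟨?_, ?_⟩
  · rintro ⟨-, h0⟩; omega
  · rintro (h | h) <;> omega

theorem C1_pyxq' {X Y A P R : ℕ} (h : P ≠ 0 ∧ Y = P + 1 ∧ X = P + 2 ∧ R = P + 3)
    (d : P ≠ A ∨ P = 0) : C1 Y X A := by
  refine ⟨?_, ?_⟩
  · rintro ⟨-, h0⟩; omega
  · rintro (h | h) <;> omega

theorem arith_fwd (X Y A P R : ℕ) 
    (dRY : R ≠ Y ∨ R = 0)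
    (dAY : A ≠ Y ∨ A = 0) (dXY : X ≠ Y ∨ X = 0)
    (nx1 : X ≠ 0 → (Y ≠ 0 ∧ X = Y + 1) ∨ (R ≠ 0 ∧ X = R + 1) ∨ (A ≠ 0 ∧ X = A + 1))
    (nx2 : X ≠ 0 → (Y = X + 1) ∨ (R = X + 1) ∨ (A = X + 1))
    (ny1 : Y ≠ 0 → (X ≠ 0 ∧ Y = X + 1) ∨ (P ≠ 0 ∧ Y = P + 1) ∨ (A ≠ 0 ∧ Y = A + 1))
    (ny2 : Y ≠ 0 → (X = Y + 1) ∨ (P = Y + 1) ∨ (A = Y + 1))
    (a1 : ¬ (((Y ≠ 0 ∧ A = Y + 1) ∨ (A ≠ 0 ∧ Y = A + 1)) ∧ X = 0))
    (a2 : ¬ ((Y ≠ 0 ∧ X = Y + 1 ∧ A = Y + 2) ∨ (A ≠ 0 ∧ X = A + 1 ∧ Y = A + 2)))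
    (b1 : ¬ (((X ≠ 0 ∧ A = X + 1) ∨ (A ≠ 0 ∧ X = A + 1)) ∧ Y = 0))
    (b2 : ¬ ((X ≠ 0 ∧ Y = X + 1 ∧ A = X + 2) ∨ (A ≠ 0 ∧ Y = A + 1 ∧ X = A + 2)))
    (d1 : ¬ (((P ≠ 0 ∧ R = P + 1) ∨ (R ≠ 0 ∧ P = R + 1)) ∧ Y = 0 ∧ X = 0))
    (d2 : ¬ ((P ≠ 0 ∧ Y = P + 1 ∧ X = P + 2 ∧ R = P + 3) ∨
        (R ≠ 0 ∧ X = R + 1 ∧ Y = R + 2 ∧ P = R + 3))) :
    (X = 0 ∧ Y = 0 ∧ ¬ (P ≠ 0 ∧ R = P + 1) ∧ ¬ (R ≠ 0 ∧ P = R + 1)) ∨
    (P ≠ 0 ∧ Y = P + 1 ∧ A = P + 2 ∧ X = P + 3 ∧ R = P + 4) ∨
    (R ≠ 0 ∧ X = R + 1 ∧ A = R + 2 ∧ Y = R + 3 ∧ P = R + 4) := by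
  rcases Nat.eq_zero_or_pos X with hX | hX
  · subst hX
    rcases Nat.eq_zero_or_pos Y with hY | hY
    · subst hY
      left
      refine ⟨rfl, rfl, fun h => d1 ⟨Or.inl h, rfl, rfl⟩, fun h => d1 ⟨Or.inr h, rfl, rfl⟩⟩
    · exfalso
      rcases ny1 hY.ne' with h | h | h
      · exact h.1 rfl
      · rcases ny2 hY.ne' with h' | h' | h'
        · clear * - h'; omega
        · clear * - h h'; omega
        · exact a1 ⟨Or.inl ⟨hY.ne', h'⟩, rfl⟩
      · exact a1 ⟨Or.inr h, rfl⟩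
  · rcases Nat.eq_zero_or_pos Y with hY | hY
    · subst hY
      exfalso
      rcases nx1 hX.ne' with h | h | h
      · exact h.1 rfl
      · rcases nx2 hX.ne' with h' | h' | h'
        · clear * - h'; omega
        · clear * - h h'; omega
        · exact b1 ⟨Or.inl ⟨hX.ne', h'⟩, rfl⟩
      · exact b1 ⟨Or.inr h, rfl⟩
    · rcases nx1 hX.ne' with h | h | h
      · -- y x
        rcases nx2 hX.ne' with h' | h' | h'
        · exfalso; clear * - h h'; omega
        · -- y x q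
          exfalso
          rcases ny1 hY.ne' with k | k | k
          · clear * - h k; omega
          · exact d2 (Or.inl ⟨k.1, k.2, by clear * - h h' k; omega, by clear * - h h' k; omega⟩)
          · exact b2 (Or.inr ⟨k.1, k.2, by clear * - h h' k; omega⟩)
        · exfalso
          exact a2 (Or.inl ⟨h.1, h.2, by clear * - h h'; omega⟩)
      · -- q x
        rcases nx2 hX.ne' with h' | h' | h'
        · -- q x y
          exfalso
          rcases ny2 hY.ne' with k | k | k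
          · clear * - h' k; omega
          · exact d2 (Or.inr ⟨h.1, h.2, by clear * - h h' k; omega, by clear * - h h' k; omega⟩)
          · exact b2 (Or.inl ⟨hX.ne', h', by clear * - h h' k; omega⟩)
        · exfalso; clear * - h h'; omega
        · -- q x a
          rcases ny1 hY.ne' with k | k | k
          · exfalso; clear * - h h' k dAY; omega
          · exfalso
            rcases ny2 hY.ne' with k' | k' | k'
            · clear * - h k k' dRY; omega
            · clear * - k k'; omega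
            · clear * - h' k' hX dXY; omega
          · rcases ny2 hY.ne' with k' | k' | k'
            · exfalso; clear * - h' k k'; omega
            · right; right
              exact ⟨h.1, h.2, by clear * - h h' k k'; omega, by clear * - h h' k k'; omega,
                by clear * - h h' k k'; omega⟩
            · exfalso; clear * - k k'; omega
      · -- a x
        rcases nx2 hX.ne' with h' | h' | h'
        · exfalso
          exact a2 (Or.inr ⟨h.1, h.2, by clear * - h h'; omega⟩)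
        · -- a x q
          rcases ny1 hY.ne' with k | k | k
          · exfalso; clear * - h' k dRY; omega
          · rcases ny2 hY.ne' with k' | k' | k'
            · exfalso; clear * - h k' dAY; omega
            · exfalso; clear * - k k'; omega
            · right; left
              exact ⟨k.1, k.2, by clear * - h h' k k'; omega, by clear * - h h' k k'; omega,
                by clear * - h h' k k'; omega⟩
          · exfalso; clear * - h k hX dXY; omega
        · exfalso; clear * - h h'; omega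

theorem arith_bwd (X Y A P R : ℕ)
    (h : (X = 0 ∧ Y = 0 ∧ ¬ (P ≠ 0 ∧ R = P + 1) ∧ ¬ (R ≠ 0 ∧ P = R + 1)) ∨
    (P ≠ 0 ∧ Y = P + 1 ∧ A = P + 2 ∧ X = P + 3 ∧ R = P + 4) ∨
    (R ≠ 0 ∧ X = R + 1 ∧ A = R + 2 ∧ Y = R + 3 ∧ P = R + 4)) :
    (¬ (((Y ≠ 0 ∧ A = Y + 1) ∨ (A ≠ 0 ∧ Y = A + 1)) ∧ X = 0)) ∧
    (¬ ((Y ≠ 0 ∧ X = Y + 1 ∧ A = Y + 2) ∨ (A ≠ 0 ∧ X = A + 1 ∧ Y = A + 2))) ∧
    (¬ (((X ≠ 0 ∧ A = X + 1) ∨ (A ≠ 0 ∧ X = A + 1)) ∧ Y = 0)) ∧
    (¬ ((X ≠ 0 ∧ Y = X + 1 ∧ A = X + 2) ∨ (A ≠ 0 ∧ Y = A + 1 ∧ X = A + 2))) ∧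
    (¬ (((P ≠ 0 ∧ R = P + 1) ∨ (R ≠ 0 ∧ P = R + 1)) ∧ Y = 0 ∧ X = 0)) ∧
    (¬ ((P ≠ 0 ∧ Y = P + 1 ∧ X = P + 2 ∧ R = P + 3) ∨
        (R ≠ 0 ∧ X = R + 1 ∧ Y = R + 2 ∧ P = R + 3))) := by
  rcases h with ⟨h1, h2, h3, h4⟩ | ⟨h1, h2, h3, h4, h5⟩ | ⟨h1, h2, h3, h4, h5⟩
  · subst h1 h2
    refine ⟨?_, ?_, ?_, ?_, ?_, ?_⟩
    · rintro ⟨h | h, -⟩ <;> omega
    · rintro (h | h) <;> omega
    · rintro ⟨h | h, -⟩ <;> omega
    · rintro (h | h) <;> omega
    · rintro ⟨h | h, -⟩
      · exact h3 h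
      · exact h4 h
    · rintro (h | h) <;> omega
  · refine ⟨?_, ?_, ?_, ?_, ?_, ?_⟩
    · rintro ⟨h | h, h'⟩ <;> omega
    · rintro (h | h) <;> omega
    · rintro ⟨h | h, h'⟩ <;> omega
    · rintro (h | h) <;> omega
    · rintro ⟨h | h, h'⟩ <;> omega
    · rintro (h | h) <;> omega
  · refine ⟨?_, ?_, ?_, ?_, ?_, ?_⟩
    · rintro ⟨h | h, h'⟩ <;> omega
    · rintro (h | h) <;> omega
    · rintro ⟨h | h, h'⟩ <;> omega
    · rintro (h | h) <;> omega
    · rintro ⟨h | h, h'⟩ <;> omega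
    · rintro (h | h) <;> omega

theorem main (h : S_TOG) : S_GAD := by
  classical
  intro N Q p q a x y hnd hQ hends hx hy t1a t1b t2a t2b t3a t3b
  simp only [List.nodup_cons, List.mem_cons, List.not_mem_nil, or_false, not_or,
    List.nodup_nil, and_true, not_false_eq_true] at hnd
  obtain ⟨⟨hpq, hpa, hpx, hpy⟩, ⟨hqa, hqx, hqy⟩, ⟨hax, hay⟩, hxy⟩ := hnd
  -- toggle 1
  obtain ⟨Q1, e1, m1⟩ := tog h N Q y a [x] (by simp) (Ne.symm hay) hQ
    (by
      intro A B
      rw [show A ++ y :: ([x] ++ a :: B) = A ++ y :: x :: a :: B from rfl, ← t1a]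
      simp only [List.mem_singleton, forall_eq])
    (by
      intro A B
      rw [show A ++ a :: ([x].reverse ++ y :: B) = A ++ a :: x :: y :: B from rfl, ← t1b]
      simp only [List.mem_singleton, forall_eq])
  have c1 : ∀ l, l ∈ Q → (l ∈ Q1 ↔ C1 (pos l x) (pos l y) (pos l a)) := by
    intro l hl
    have hn := hQ l hl
    rw [m1]
    unfold C1
    simp only [List.mem_singleton, forall_eq, List.reverse_singleton, List.cons_append,
      List.nil_append, inf2 hn, inf3 hn, hl, true_and]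
    simp only [mem_iff, not_not]
  have hQ1 : ∀ l ∈ Q1, l.Nodup := fun l hl => hQ l ((m1 l).mp hl).1
  -- toggle 2
  obtain ⟨Q2, e2, m2⟩ := tog h N Q1 x a [y] (by simp) (Ne.symm hax) hQ1
    (by
      intro A B
      rw [show A ++ x :: ([y] ++ a :: B) = A ++ x :: y :: a :: B from rfl]
      simp only [List.mem_singleton, forall_eq]
      constructor
      · rintro ⟨h1, h2⟩
        have h3 := (t2a A B).mp ⟨((m1 _).mp h1).1, h2⟩
        have hn := hQ _ h3
        rw [c1 _ h3]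
        have hi : [x, y, a] <:+: A ++ x :: y :: a :: B := ⟨A, B, by simp⟩
        rw [inf3 hn] at hi
        exact C1_xya hi
      · intro h1
        have h3 := (t2a A B).mpr ((m1 _).mp h1).1
        refine ⟨?_, h3.2⟩
        rw [c1 _ h3.1]
        have h2 := h3.2
        rw [mem_iff, not_not] at h2
        rw [h2]
        exact C1_y0 _ _)
    (by
      intro A B
      rw [show A ++ a :: ([y].reverse ++ x :: B) = A ++ a :: y :: x :: B from rfl]
      simp only [List.mem_singleton, forall_eq]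
      constructor
      · rintro ⟨h1, h2⟩
        have h3 := (t2b A B).mp ⟨((m1 _).mp h1).1, h2⟩
        have hn := hQ _ h3
        rw [c1 _ h3]
        have hi : [a, y, x] <:+: A ++ a :: y :: x :: B := ⟨A, B, by simp⟩
        rw [inf3 hn] at hi
        exact C1_ayx hi
      · intro h1
        have h3 := (t2b A B).mpr ((m1 _).mp h1).1
        refine ⟨?_, h3.2⟩
        rw [c1 _ h3.1]
        have h2 := h3.2
        rw [mem_iff, not_not] at h2
        rw [h2]
        exact C1_y0 _ _)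
  have c2 : ∀ l, l ∈ Q → (l ∈ Q2 ↔ l ∈ Q1 ∧ C1 (pos l y) (pos l x) (pos l a)) := by
    intro l hl
    have hn := hQ l hl
    rw [m2]
    unfold C1
    simp only [List.mem_singleton, forall_eq, List.reverse_singleton, List.cons_append,
      List.nil_append, inf2 hn, inf3 hn]
    simp only [mem_iff, not_not]
  have hQ2 : ∀ l ∈ Q2, l.Nodup := fun l hl => hQ1 l ((m2 l).mp hl).1
  have s2 : ∀ l ∈ Q2, l ∈ Q := fun l hl => ((m1 l).mp ((m2 l).mp hl).1).1
  -- toggle 3
  obtain ⟨Q3, e3, m3⟩ := tog h N Q2 p q [y, x] (by simp) hpq hQ2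
    (by
      intro A B
      rw [show A ++ p :: ([y, x] ++ q :: B) = A ++ p :: y :: x :: q :: B from rfl]
      simp only [List.mem_cons, List.not_mem_nil, or_false, forall_eq_or_imp, forall_eq]
      constructor
      · rintro ⟨h1, h2⟩
        have h3 := (t3a A B).mp ⟨s2 _ h1, h2.2, h2.1⟩
        have hn := hQ _ h3
        rw [c2 _ h3, c1 _ h3]
        have hi : [p, y, x, q] <:+: A ++ p :: y :: x :: q :: B := ⟨A, B, by simp⟩
        rw [inf4 hn] at hi
        exact ⟨C1_pyxq hi (ne_pos hqa), C1_pyxq' hi (ne_pos hpa)⟩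
      · intro h1
        have h3 := (t3a A B).mpr (s2 _ h1)
        refine ⟨?_, h3.2.2, h3.2.1⟩
        rw [c2 _ h3.1, c1 _ h3.1]
        have h2 := h3.2
        rw [mem_iff, not_not, mem_iff, not_not] at h2
        rw [h2.1, h2.2]
        exact ⟨C1_y0 _ _, C1_y0 _ _⟩)
    (by
      intro A B
      rw [show A ++ q :: ([y, x].reverse ++ p :: B) = A ++ q :: x :: y :: p :: B from rfl]
      simp only [List.mem_cons, List.not_mem_nil, or_false, forall_eq_or_imp, forall_eq]
      constructor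
      · rintro ⟨h1, h2⟩
        have h3 := (t3b A B).mp ⟨s2 _ h1, h2.2, h2.1⟩
        have hn := hQ _ h3
        rw [c2 _ h3, c1 _ h3]
        have hi : [q, x, y, p] <:+: A ++ q :: x :: y :: p :: B := ⟨A, B, by simp⟩
        rw [inf4 hn] at hi
        exact ⟨C1_pyxq' hi (ne_pos hqa), C1_pyxq hi (ne_pos hpa)⟩
      · intro h1
        have h3 := (t3b A B).mpr (s2 _ h1)
        refine ⟨?_, h3.2.2, h3.2.1⟩
        rw [c2 _ h3.1, c1 _ h3.1]
        have h2 := h3.2
        rw [mem_iff, not_not, mem_iff, not_not] at h2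
        rw [h2.1, h2.2]
        exact ⟨C1_y0 _ _, C1_y0 _ _⟩)
  have c3 : ∀ l, l ∈ Q → (l ∈ Q3 ↔ l ∈ Q2 ∧
      ¬ (((pos l p ≠ 0 ∧ pos l q = pos l p + 1) ∨ (pos l q ≠ 0 ∧ pos l p = pos l q + 1)) ∧
        pos l y = 0 ∧ pos l x = 0) ∧
      ¬ ((pos l p ≠ 0 ∧ pos l y = pos l p + 1 ∧ pos l x = pos l p + 2 ∧ pos l q = pos l p + 3) ∨
        (pos l q ≠ 0 ∧ pos l x = pos l q + 1 ∧ pos l y = pos l q + 2 ∧
          pos l p = pos l q + 3))) := by
    intro l hl
    have hn := hQ l hl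
    rw [m3]
    have hrev : [y, x].reverse = [x, y] := rfl
    rw [hrev]
    simp only [List.mem_cons, List.not_mem_nil, or_false, forall_eq_or_imp, forall_eq,
      List.cons_append, List.nil_append, inf2 hn, inf4 hn]
    simp only [mem_iff, not_not]
  rw [e1, e2, e3]
  congr 1
  congr 1
  ext l
  rw [Finset.mem_filter]
  have hsub : l ∈ Q3 → l ∈ Q := fun hl => s2 l ((m3 l).mp hl).1
  by_cases hl : l ∈ Q
  · have hn := hQ l hl
    rw [c3 l hl, c2 l hl, c1 l hl]
    simp only [hl, true_and]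
    unfold CL
    simp only [inf2 hn, inf5 hn, mem_iff, not_not]
    obtain ⟨hx1, hy1, hx2, hy2⟩ := hends l hl
    constructor
    · rintro ⟨⟨h1, h2⟩, h3, h4⟩
      refine arith_fwd (pos l x) (pos l y) (pos l a) (pos l p) (pos l q) (ne_pos hqy)
        (ne_pos hay) (ne_pos hxy) ?_ ?_ ?_ ?_ h1.1 h1.2 h2.1 h2.2 h3 h4
      · intro h0
        obtain ⟨c, hc⟩ := exists_pred hn h0 hx1
        have h2 := hx l hl c (Or.inl hc)
        rw [inf2 hn] at hc
        rcases h2 with rfl | rfl | rfl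
        · exact Or.inl hc
        · exact Or.inr (Or.inl hc)
        · exact Or.inr (Or.inr hc)
      · intro h0
        obtain ⟨c, hc⟩ := exists_succ hn h0 hx2
        have h2 := hx l hl c (Or.inr hc)
        rw [inf2 hn] at hc
        rcases h2 with rfl | rfl | rfl
        · exact Or.inl hc.2
        · exact Or.inr (Or.inl hc.2)
        · exact Or.inr (Or.inr hc.2)
      · intro h0
        obtain ⟨c, hc⟩ := exists_pred hn h0 hy1
        have h2 := hy l hl c (Or.inl hc)
        rw [inf2 hn] at hc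
        rcases h2 with rfl | rfl | rfl
        · exact Or.inl hc
        · exact Or.inr (Or.inl hc)
        · exact Or.inr (Or.inr hc)
      · intro h0
        obtain ⟨c, hc⟩ := exists_succ hn h0 hy2
        have h2 := hy l hl c (Or.inr hc)
        rw [inf2 hn] at hc
        rcases h2 with rfl | rfl | rfl
        · exact Or.inl hc.2
        · exact Or.inr (Or.inl hc.2)
        · exact Or.inr (Or.inr hc.2)
    · intro h0
      obtain ⟨h1, h2, h3, h4, h5, h6⟩ := arith_bwd _ _ _ _ _ h0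
      exact ⟨⟨⟨h1, h2⟩, ⟨h3, h4⟩⟩, h5, h6⟩
  · constructor
    · intro h1
      exact absurd (hsub h1) hl
    · intro h1
      exact absurd h1.1 hl

end Pool.Agent.W381.HTGad
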