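import Pool.Agent.W886.CS.Stm0

set_option autoImplicit false

namespace Pool.Agent.W381.CSCPT

open Pool.Agent.W886.CS

/-- a condition on finitely many coordinates is closed -/
lemma closed_of_finite {Y : Type} (U : Finset Y) (P : (Y → Bool) → Prop)
    (h : ∀ A A' : Y → Bool, (∀ u ∈ U, A u = A' u) → (P A ↔ P A')) :
    IsClosed {A : Y → Bool | P A} := by
  let R : (Y → Bool) → (U → Bool) := fun A u => A u
  have hR : Continuous R := continuous_pi fun u => continuous_apply (u : Y)
  have e : {A : Y → Bool | P A} = R ⁻¹' (R '' {A : Y → Bool | P A}) := by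
    ext A
    constructor
    · intro hA
      exact ⟨A, hA, rfl⟩
    · rintro ⟨A', hA', hAA'⟩
      have h1 : ∀ u ∈ U, A' u = A u := fun u hu => congrFun hAA' ⟨u, hu⟩
      exact (h A' A h1).1 hA'
  rw [e]
  exact (isClosed_discrete _).preimage hR

theorem task : S_CPT := by
  classical
  intro Y T c idx m Q hQ B hne
  let K : ℕ → Set (Y → Bool) := fun k => {A | (∀ y, (∀ t v, y ≠ c t v) → A y = B y) ∧
      ∀ t, idx t ≤ k → LastOdd A (c t) (m t) (Q t A)}
  have hcl : ∀ k, IsClosed (K k) := by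
    intro k
    have e : K k = (⋂ y, ⋂ (_ : ∀ t v, y ≠ c t v), {A : Y → Bool | A y = B y}) ∩
        ⋂ t, ⋂ (_ : idx t ≤ k), {A : Y → Bool | LastOdd A (c t) (m t) (Q t A)} := by
      ext A
      simp only [K, Set.mem_inter_iff, Set.mem_iInter, Set.mem_ofPred_eq]
    rw [e]
    refine IsClosed.inter ?_ ?_
    · refine isClosed_iInter fun y => isClosed_iInter fun _ => ?_
      refine closed_of_finite {y} _ fun A A' hA => ?_
      have := hA y (Finset.mem_singleton_self y)
      rw [this]
    · refine isClosed_iInter fun t => isClosed_iInter fun _ => ?_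
      obtain ⟨U, hU⟩ := hQ t
      refine closed_of_finite (U ∪ (Finset.range (m t)).image (c t)) _ fun A A' hA => ?_
      have h1 : Q t A ↔ Q t A' := hU A A' fun u hu => hA u (Finset.mem_union_left _ hu)
      have h2 : ∀ v < m t, A (c t v) = A' (c t v) := fun v hv =>
        hA _ (Finset.mem_union_right _ (Finset.mem_image_of_mem _ (Finset.mem_range.2 hv)))
      unfold LastOdd
      constructor
      · rintro ⟨v, hv, ha, hb, hc⟩
        exact ⟨v, hv, (h2 v hv) ▸ ha, fun v' h3 h4 => (h2 v' h4) ▸ hb v' h3 h4, hc.trans h1⟩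
      · rintro ⟨v, hv, ha, hb, hc⟩
        exact ⟨v, hv, (h2 v hv).symm ▸ ha, fun v' h3 h4 => (h2 v' h4).symm ▸ hb v' h3 h4,
          hc.trans h1.symm⟩
  have hanti : ∀ k, K (k + 1) ⊆ K k := fun k A hA => ⟨hA.1, fun t ht => hA.2 t (by omega)⟩
  obtain ⟨A, hA⟩ := IsCompact.nonempty_iInter_of_sequence_nonempty_isCompact_isClosed K hanti
    (fun k => hne k) (hcl 0).isCompact hcl
  rw [Set.mem_iInter] at hA
  exact ⟨A, (hA 0).1, fun t => (hA (idx t)).2 t le_rfl⟩

end Pool.Agent.W381.CSCPT
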